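import Mathlib

/-!
Two angles with interleaved dyadic expansions: the odd multiples of the pair come
arbitrarily close to the lattice, but only at a logarithmic rate.
-/

open Finset

namespace Pool.Agent.MP_653f52_an

/-- the tower-type exponents `1, 4, 256, ...` -/
def ex : ℕ → ℕ
  | 0 => 1
  | k + 1 => 4 ^ ex k

lemma ex_zero : ex 0 = 1 := rfl

lemma ex_succ (k : ℕ) : ex (k + 1) = 4 ^ ex k := rfl

attribute [irreducible] ex

lemma ex_pos (k : ℕ) : 1 ≤ ex k := by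
  cases k with
  | zero => rw [ex_zero]
  | succ k => rw [ex_succ]; exact Nat.one_le_pow _ _ (by norm_num)

lemma four_mul_le_pow (x : ℕ) (hx : 1 ≤ x) : 4 * x ≤ 4 ^ x := by
  induction x, hx using Nat.le_induction with
  | base => norm_num
  | succ n hn ih => rw [pow_succ]; omega

lemma four_mul_ex (k : ℕ) : 4 * ex k ≤ ex (k + 1) := by
  rw [ex_succ]; exact four_mul_le_pow _ (ex_pos k)

lemma lt_ex (k : ℕ) : k < ex k := by
  induction k with
  | zero => rw [ex_zero]; norm_num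
  | succ k ih => have := four_mul_ex k; omega

/-- the number with binary digits at the places `f k` -/
noncomputable def phi (f : ℕ → ℕ) : ℝ := ∑' k, (1 / 2 : ℝ) ^ (f k)

lemma add_le_of_step {f : ℕ → ℕ} (hf : ∀ k, f k + 1 ≤ f (k + 1)) (k j : ℕ) :
    f k + j ≤ f (j + k) := by
  induction j with
  | zero => simp
  | succ j ih =>
    have := hf (j + k)
    have e : j + 1 + k = j + k + 1 := by ring
    rw [e]; omega

lemma summable_phi {f : ℕ → ℕ} (hf : ∀ k, f k + 1 ≤ f (k + 1)) :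
    Summable fun k => (1 / 2 : ℝ) ^ (f k) := by
  refine Summable.of_nonneg_of_le (fun k => by positivity) (fun k => ?_)
    (summable_geometric_two)
  apply pow_le_pow_of_le_one (by norm_num) (by norm_num)
  have := add_le_of_step hf 0 k
  simp at this
  omega

lemma head_eq {f : ℕ → ℕ} (hf : ∀ k, f k + 1 ≤ f (k + 1)) (k : ℕ) :
    ∃ s : ℕ, Odd s ∧ ∑ j ∈ range (k + 1), (1 / 2 : ℝ) ^ (f j) = s / 2 ^ (f k) := by
  induction k with
  | zero => exact ⟨1, odd_one, by simp⟩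
  | succ k ih =>
    obtain ⟨s, hs, h⟩ := ih
    refine ⟨s * 2 ^ (f (k + 1) - f k) + 1, ?_, ?_⟩
    · have : 1 ≤ f (k + 1) - f k := by have := hf k; omega
      obtain ⟨c, hc⟩ := Nat.exists_eq_add_of_le this
      rw [hc]
      exact ⟨s * 2 ^ c, by ring⟩
    · rw [sum_range_succ, h]
      have h1 : f (k + 1) = f k + (f (k + 1) - f k) := by have := hf k; omega
      have h2 : (2 : ℝ) ^ f (k + 1) = 2 ^ f k * 2 ^ (f (k + 1) - f k) := by
        rw [← pow_add, ← h1]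
      push_cast
      rw [one_div, inv_pow, h2]
      field_simp

lemma split_phi {f : ℕ → ℕ} (hf : ∀ k, f k + 1 ≤ f (k + 1)) (k : ℕ) :
    ∃ s : ℕ, Odd s ∧ ∃ R : ℝ, 0 ≤ R ∧ R ≤ 2 * (1 / 2 : ℝ) ^ (f (k + 1)) ∧
      phi f = s / 2 ^ (f k) + R := by
  obtain ⟨s, hs, h⟩ := head_eq hf k
  refine ⟨s, hs, ∑' j, (1 / 2 : ℝ) ^ (f (j + (k + 1))), ?_, ?_, ?_⟩
  · exact tsum_nonneg (fun j => by positivity)
  · have hs1 : Summable fun j => (1 / 2 : ℝ) ^ (f (j + (k + 1))) :=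
      (summable_nat_add_iff (k + 1)).2 (summable_phi hf)
    have hs2 : Summable fun j : ℕ => (1 / 2 : ℝ) ^ (f (k + 1)) * (1 / 2 : ℝ) ^ j :=
      (summable_geometric_two).mul_left _
    have hle : ∑' j, (1 / 2 : ℝ) ^ (f (j + (k + 1)))
        ≤ ∑' j : ℕ, (1 / 2 : ℝ) ^ (f (k + 1)) * (1 / 2 : ℝ) ^ j := by
      refine hs1.tsum_le_tsum (fun j => ?_) hs2
      rw [← pow_add]
      exact pow_le_pow_of_le_one (by norm_num) (by norm_num) (add_le_of_step hf (k + 1) j)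
    rw [tsum_mul_left, tsum_geometric_two] at hle
    linarith
  · rw [← h, phi, (summable_phi hf).sum_add_tsum_nat_add (k + 1)]

lemma abs_sin_two_pow (j : ℕ) (y : ℝ) :
    |Real.sin (2 ^ j * y)| ≤ 2 ^ j * |Real.sin y| := by
  induction j with
  | zero => simp
  | succ j ih =>
    have h : (2 : ℝ) ^ (j + 1) * y = 2 * (2 ^ j * y) := by ring
    rw [h, Real.sin_two_mul, abs_mul, abs_mul]
    have h1 := Real.abs_cos_le_one (2 ^ j * y)
    have h2 := abs_nonneg (Real.sin (2 ^ j * y))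
    have h3 : |(2 : ℝ)| = 2 := by norm_num
    rw [h3, pow_succ]
    nlinarith [abs_nonneg (Real.cos (2 ^ j * y))]

/-- Lower bound: odd multiples of `phi f` are far from the integers until late. -/
lemma sin_lower {f : ℕ → ℕ} (hf : ∀ k, f k + 1 ≤ f (k + 1)) (h0 : ∀ k, 1 ≤ f k)
    (k m : ℕ) (hm : Odd m) (hle : m * 2 ^ (f k + 3) ≤ 2 ^ (f (k + 1))) :
    (1 / 4 : ℝ) ^ (f k) ≤ Real.sin (Real.pi * (m * phi f)) ^ 2 := by
  obtain ⟨s, hs, R, hR0, hR, hphi⟩ := split_phi hf k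
  obtain ⟨q, hq⟩ := hm.mul hs
  -- N = 2^(f k - 1)
  obtain ⟨g, hg⟩ := Nat.exists_eq_add_of_le (h0 k)
  have hN : (2 : ℝ) ^ f k = 2 * 2 ^ g := by rw [hg, pow_add]; norm_num
  set δ : ℝ := m * R * 2 ^ g with hδ
  have hδ0 : 0 ≤ δ := by positivity
  have hδ1 : δ ≤ 1 / 8 := by
    have h1 : (m : ℝ) * 2 ^ (f k + 3) ≤ 2 ^ (f (k + 1)) := by exact_mod_cast hle
    have h2 : R ≤ 2 / 2 ^ (f (k + 1)) := by
      rw [one_div, inv_pow] at hR
      exact hR
    have hp : (0 : ℝ) < 2 ^ (f (k + 1)) := by positivity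
    have h3 : δ ≤ m * (2 / 2 ^ (f (k + 1))) * 2 ^ g := by
      rw [hδ]; gcongr
    refine h3.trans ?_
    rw [pow_add, hN] at h1
    rw [mul_div_assoc', div_mul_eq_mul_div, div_le_iff₀ hp]
    nlinarith
  have hx : Real.pi * (m * phi f) * 2 ^ g = (q : ℤ) * Real.pi + (Real.pi / 2 + Real.pi * δ) := by
    have hq' : (m : ℝ) * s = 2 * q + 1 := by exact_mod_cast hq
    rw [hphi, hN, hδ]
    have h2g : (2 : ℝ) ^ g ≠ 0 := by positivity
    have : (m : ℝ) * (s / (2 * 2 ^ g) + R) = (m * s) / (2 * 2 ^ g) + m * R := by ring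
    rw [this, hq']
    field_simp
    push_cast
    ring
  have h1 : |Real.sin (2 ^ g * (Real.pi * (m * phi f)))| = |Real.cos (Real.pi * δ)| := by
    rw [mul_comm, hx, add_comm, Real.sin_add_int_mul_pi]
    rw [abs_mul, abs_zpow, abs_neg, abs_one, one_zpow, one_mul, add_comm, Real.sin_add_pi_div_two]
  have h2 : (1 / 2 : ℝ) ≤ |Real.cos (Real.pi * δ)| := by
    have h3 : Real.cos (Real.pi / 3) ≤ Real.cos (Real.pi * δ) := by
      apply Real.cos_le_cos_of_nonneg_of_le_pi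
      · positivity
      · linarith [Real.pi_pos]
      · nlinarith [Real.pi_pos]
    rw [Real.cos_pi_div_three] at h3
    exact h3.trans (le_abs_self _)
  have h4 := abs_sin_two_pow g (Real.pi * (m * phi f))
  rw [h1] at h4
  have h5 : (1 / 2 : ℝ) ^ (f k) ≤ |Real.sin (Real.pi * (m * phi f))| := by
    rw [one_div, inv_pow, hN, inv_eq_one_div, div_le_iff₀ (by positivity)]
    nlinarith
  have h6 : (1 / 4 : ℝ) ^ (f k) = ((1 / 2 : ℝ) ^ (f k)) ^ 2 := by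
    rw [← pow_mul, mul_comm, pow_mul]; norm_num
  rw [h6, ← sq_abs (Real.sin _)]
  gcongr

/-- first angle (divided by `2 * pi`) -/
noncomputable def phi1 : ℝ := phi fun k => ex (2 * k)

/-- second angle (divided by `2 * pi`) -/
noncomputable def phi2 : ℝ := phi fun k => ex (2 * k + 1)

lemma step1 (k : ℕ) : ex (2 * k) + 1 ≤ ex (2 * (k + 1)) := by
  have h1 := four_mul_ex (2 * k)
  have h2 := four_mul_ex (2 * k + 1)
  have h3 := ex_pos (2 * k)
  have e : 2 * (k + 1) = 2 * k + 1 + 1 := by ring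
  rw [e]; omega

lemma step2 (k : ℕ) : ex (2 * k + 1) + 1 ≤ ex (2 * (k + 1) + 1) := by
  have h1 := four_mul_ex (2 * k + 1)
  have h2 := four_mul_ex (2 * k + 2)
  have h3 := ex_pos (2 * k + 1)
  have e : 2 * (k + 1) + 1 = 2 * k + 2 + 1 := by ring
  have e' : 2 * k + 1 + 1 = 2 * k + 2 := by ring
  rw [e'] at h1
  rw [e]; omega

/-- the squared distance proxy of the odd multiple `2 n + 1` of the angles to the lattice -/
noncomputable def S (n : ℕ) : ℝ :=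
  Real.sin (Real.pi * ((2 * n + 1 : ℕ) * phi1)) ^ 2 +
    Real.sin (Real.pi * ((2 * n + 1 : ℕ) * phi2)) ^ 2

/-- modular step: an odd multiplier which is good for both partial sums. -/
lemma exists_mult (a b s1 s2 : ℕ) (ha : 1 ≤ a) (hab : a ≤ b) (hs1 : Odd s1) (hs2 : Odd s2) :
    ∃ m q q' r : ℕ, Odd m ∧ m < 2 ^ b ∧ r < 2 ^ a ∧ m * s1 = r + 2 ^ b * q ∧
      m * s2 = 1 + 2 ^ a * q' := by
  have hc1 : Nat.Coprime s1 (2 ^ b) := (Nat.coprime_two_right.2 hs1).pow_right b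
  have hc2 : Nat.Coprime s2 (2 ^ a) := (Nat.coprime_two_right.2 hs2).pow_right a
  have hc3 : Nat.Coprime (2 ^ a) s1 := ((Nat.coprime_two_right.2 hs1).pow_right a).symm
  have h2a : 1 < 2 ^ a := Nat.one_lt_pow (by omega) (by norm_num)
  have h2b : 1 < 2 ^ b := Nat.one_lt_pow (by omega) (by norm_num)
  obtain ⟨t1, -, ht1⟩ := Nat.exists_mul_mod_eq_one_of_coprime hc1 h2b
  obtain ⟨t2, -, ht2⟩ := Nat.exists_mul_mod_eq_one_of_coprime hc2 h2a
  have ht1' : s1 * t1 ≡ 1 [MOD 2 ^ b] := by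
    rw [Nat.ModEq, ht1, Nat.mod_eq_of_lt h2b]
  have ht2' : s2 * t2 ≡ 1 [MOD 2 ^ a] := by
    rw [Nat.ModEq, ht2, Nat.mod_eq_of_lt h2a]
  set r := (s1 * t2) % 2 ^ a with hr
  set m := (t1 * r) % 2 ^ b with hm
  have hrlt : r < 2 ^ a := Nat.mod_lt _ (by positivity)
  have hmlt : m < 2 ^ b := Nat.mod_lt _ (by positivity)
  have hdvd : 2 ^ a ∣ 2 ^ b := pow_dvd_pow 2 hab
  have hm1 : m ≡ t1 * r [MOD 2 ^ b] := Nat.mod_modEq _ _
  have hr1 : r ≡ s1 * t2 [MOD 2 ^ a] := Nat.mod_modEq _ _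
  have h1 : m * s1 ≡ r [MOD 2 ^ b] := by
    calc m * s1 ≡ t1 * r * s1 [MOD 2 ^ b] := hm1.mul_right _
      _ = (s1 * t1) * r := by ring
      _ ≡ 1 * r [MOD 2 ^ b] := ht1'.mul_right _
      _ = r := one_mul _
  have h2 : s1 * m ≡ s1 * t2 [MOD 2 ^ a] := by
    calc s1 * m = m * s1 := mul_comm _ _
      _ ≡ r [MOD 2 ^ a] := h1.of_dvd hdvd
      _ ≡ s1 * t2 [MOD 2 ^ a] := hr1
  have h3 : m ≡ t2 [MOD 2 ^ a] := Nat.ModEq.cancel_left_of_coprime hc3 h2
  have h4 : m * s2 ≡ 1 [MOD 2 ^ a] := by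
    calc m * s2 ≡ t2 * s2 [MOD 2 ^ a] := h3.mul_right _
      _ = s2 * t2 := mul_comm _ _
      _ ≡ 1 [MOD 2 ^ a] := ht2'
  have h5 : m * s1 = r + 2 ^ b * (m * s1 / 2 ^ b) := by
    have hlt : r < 2 ^ b := lt_of_lt_of_le hrlt (Nat.pow_le_pow_right (by norm_num) hab)
    have : m * s1 % 2 ^ b = r := by
      have := h1
      rw [Nat.ModEq, Nat.mod_eq_of_lt hlt] at this
      exact this
    have h := Nat.mod_add_div (m * s1) (2 ^ b)
    rw [this] at h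
    exact h.symm
  have h6 : m * s2 = 1 + 2 ^ a * (m * s2 / 2 ^ a) := by
    have : m * s2 % 2 ^ a = 1 := by
      have := h4
      rw [Nat.ModEq, Nat.mod_eq_of_lt h2a] at this
      exact this
    have h := Nat.mod_add_div (m * s2) (2 ^ a)
    rw [this] at h
    exact h.symm
  refine ⟨m, _, _, r, ?_, hmlt, hrlt, h5, h6⟩
  have hodd : Odd (m * s2) := by
    rw [h6]
    obtain ⟨c, hc⟩ := Nat.exists_eq_add_of_le ha
    rw [hc]
    exact ⟨2 ^ c * (m * s2 / 2 ^ (1 + c)), by ring⟩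
  exact (Nat.odd_mul.1 hodd).1

lemma sin_sq_le_of_eq {x δ : ℝ} {q : ℕ} (h : x = q + δ) :
    Real.sin (Real.pi * x) ^ 2 ≤ (Real.pi * δ) ^ 2 := by
  have h1 : Real.pi * x = Real.pi * δ + (q : ℤ) * Real.pi := by rw [h]; push_cast; ring
  have h2 : |Real.sin (Real.pi * x)| = |Real.sin (Real.pi * δ)| := by
    rw [h1, Real.sin_add_int_mul_pi]
    rw [abs_mul, abs_zpow, abs_neg, abs_one, one_zpow, one_mul]
  rw [← sq_abs, h2, sq_abs]
  exact Real.sin_sq_le_sq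

lemma half_pow_aux {a b k : ℕ} (h : a + k ≤ b) : (2 : ℝ) ^ a * (1 / 2 : ℝ) ^ b ≤ (1 / 2 : ℝ) ^ k := by
  have h1 : (1 / 2 : ℝ) ^ b ≤ (1 / 2 : ℝ) ^ (a + k) :=
    pow_le_pow_of_le_one (by norm_num) (by norm_num) h
  calc (2 : ℝ) ^ a * (1 / 2 : ℝ) ^ b ≤ 2 ^ a * (1 / 2 : ℝ) ^ (a + k) := by gcongr
    _ = (1 / 2 : ℝ) ^ k := by
      rw [pow_add, ← mul_assoc, ← mul_pow]; norm_num

lemma S_small (k : ℕ) : ∃ n : ℕ, S n ≤ 8 * Real.pi ^ 2 * (1 / 4 : ℝ) ^ k := by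
  obtain ⟨s1, hs1, R1, hR10, hR1, hphi1⟩ := split_phi (f := fun k => ex (2 * k)) step1 (k + 1)
  obtain ⟨s2, hs2, R2, hR20, hR2, hphi2⟩ := split_phi (f := fun k => ex (2 * k + 1)) step2 k
  have e1 : 2 * (k + 1) = 2 * k + 2 := by ring
  have e2 : 2 * (k + 1 + 1) = 2 * k + 4 := by ring
  have e3 : 2 * (k + 1) + 1 = 2 * k + 3 := by ring
  rw [e2] at hR1
  rw [e1] at hphi1
  rw [e3] at hR2
  have x1 := four_mul_ex (2 * k + 1)
  have x2 := four_mul_ex (2 * k + 2)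
  have x3 := four_mul_ex (2 * k + 3)
  have x0 := lt_ex (2 * k + 1)
  have y1 : 2 * k + 1 + 1 = 2 * k + 2 := by ring
  have y2 : 2 * k + 2 + 1 = 2 * k + 3 := by ring
  have y3 : 2 * k + 3 + 1 = 2 * k + 4 := by ring
  rw [y1] at x1
  rw [y2] at x2
  rw [y3] at x3
  obtain ⟨m, q, q', r, hmo, hmlt, hrlt, h1, h2⟩ :=
    exists_mult (ex (2 * k + 1)) (ex (2 * k + 2)) s1 s2 (ex_pos _) (by omega) hs1 hs2
  obtain ⟨n, hn⟩ := hmo
  refine ⟨n, ?_⟩
  have hmR : (m : ℝ) ≤ 2 ^ ex (2 * k + 2) := by exact_mod_cast hmlt.le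
  have hrR : (r : ℝ) ≤ 2 ^ ex (2 * k + 1) := by exact_mod_cast hrlt.le
  have h1R : (m : ℝ) * s1 = r + 2 ^ ex (2 * k + 2) * q := by exact_mod_cast h1
  have h2R : (m : ℝ) * s2 = 1 + 2 ^ ex (2 * k + 1) * q' := by exact_mod_cast h2
  have key1 : (m : ℝ) * phi1 = q + (r * (1 / 2 : ℝ) ^ ex (2 * k + 2) + m * R1) := by
    unfold phi1
    rw [hphi1, mul_add, mul_div_assoc', h1R, one_div, inv_pow]
    field_simp
    ring
  have key2 : (m : ℝ) * phi2 = q' + ((1 / 2 : ℝ) ^ ex (2 * k + 1) + m * R2) := by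
    unfold phi2
    rw [hphi2, mul_add, mul_div_assoc', h2R, one_div, inv_pow]
    field_simp
    ring
  have b1 := sin_sq_le_of_eq key1
  have b2 := sin_sq_le_of_eq key2
  have d1 : r * (1 / 2 : ℝ) ^ ex (2 * k + 2) + m * R1 ≤ 2 * (1 / 2 : ℝ) ^ k := by
    have c1 : r * (1 / 2 : ℝ) ^ ex (2 * k + 2) ≤ (1 / 2 : ℝ) ^ k := by
      refine le_trans ?_ (half_pow_aux (a := ex (2 * k + 1)) (b := ex (2 * k + 2)) (by omega))
      gcongr
    have c2 : m * R1 ≤ (1 / 2 : ℝ) ^ k := by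
      refine le_trans ?_ (half_pow_aux (a := ex (2 * k + 2) + 1) (b := ex (2 * k + 4)) (by omega))
      calc (m : ℝ) * R1 ≤ 2 ^ ex (2 * k + 2) * (2 * (1 / 2 : ℝ) ^ ex (2 * k + 4)) := by gcongr
        _ = 2 ^ (ex (2 * k + 2) + 1) * (1 / 2 : ℝ) ^ ex (2 * k + 4) := by ring
    linarith
  have d2 : (1 / 2 : ℝ) ^ ex (2 * k + 1) + m * R2 ≤ 2 * (1 / 2 : ℝ) ^ k := by
    have c1 : (1 / 2 : ℝ) ^ ex (2 * k + 1) ≤ (1 / 2 : ℝ) ^ k :=
      pow_le_pow_of_le_one (by norm_num) (by norm_num) (by omega)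
    have c2 : m * R2 ≤ (1 / 2 : ℝ) ^ k := by
      refine le_trans ?_ (half_pow_aux (a := ex (2 * k + 2) + 1) (b := ex (2 * k + 3)) (by omega))
      calc (m : ℝ) * R2 ≤ 2 ^ ex (2 * k + 2) * (2 * (1 / 2 : ℝ) ^ ex (2 * k + 3)) := by gcongr
        _ = 2 ^ (ex (2 * k + 2) + 1) * (1 / 2 : ℝ) ^ ex (2 * k + 3) := by ring
    linarith
  have z1 : 0 ≤ r * (1 / 2 : ℝ) ^ ex (2 * k + 2) + m * R1 := by positivity
  have z2 : 0 ≤ (1 / 2 : ℝ) ^ ex (2 * k + 1) + m * R2 := by positivity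
  have q4 : ((1 / 2 : ℝ) ^ k) ^ 2 = (1 / 4 : ℝ) ^ k := by
    rw [← pow_mul, mul_comm, pow_mul]; norm_num
  have f1 : (Real.pi * (r * (1 / 2 : ℝ) ^ ex (2 * k + 2) + m * R1)) ^ 2
      ≤ 4 * Real.pi ^ 2 * (1 / 4 : ℝ) ^ k := by
    rw [mul_pow, ← q4]
    calc Real.pi ^ 2 * (r * (1 / 2 : ℝ) ^ ex (2 * k + 2) + m * R1) ^ 2
        ≤ Real.pi ^ 2 * (2 * (1 / 2 : ℝ) ^ k) ^ 2 := by gcongr
      _ = 4 * Real.pi ^ 2 * ((1 / 2 : ℝ) ^ k) ^ 2 := by ring
  have f2 : (Real.pi * ((1 / 2 : ℝ) ^ ex (2 * k + 1) + m * R2)) ^ 2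
      ≤ 4 * Real.pi ^ 2 * (1 / 4 : ℝ) ^ k := by
    rw [mul_pow, ← q4]
    calc Real.pi ^ 2 * ((1 / 2 : ℝ) ^ ex (2 * k + 1) + m * R2) ^ 2
        ≤ Real.pi ^ 2 * (2 * (1 / 2 : ℝ) ^ k) ^ 2 := by gcongr
      _ = 4 * Real.pi ^ 2 * ((1 / 2 : ℝ) ^ k) ^ 2 := by ring
  unfold S
  rw [← hn]
  linarith

/-- The odd multiples come arbitrarily close. -/
lemma S_inf (ε : ℝ) (hε : 0 < ε) : ∃ n : ℕ, S n < ε := by
  have hlim : Filter.Tendsto (fun k : ℕ => 8 * Real.pi ^ 2 * (1 / 4 : ℝ) ^ k)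
      Filter.atTop (nhds (8 * Real.pi ^ 2 * 0)) :=
    (tendsto_pow_atTop_nhds_zero_of_lt_one (by norm_num) (by norm_num)).const_mul _
  rw [mul_zero] at hlim
  obtain ⟨k, hk⟩ := (hlim.eventually (gt_mem_nhds hε)).exists
  obtain ⟨n, hn⟩ := S_small k
  exact ⟨n, lt_of_le_of_lt hn hk⟩

/-- Lower bound at scale `j`. -/
lemma S_ge (j n : ℕ) (h : (2 * n + 1) * 2 ^ (ex j + 3) ≤ 2 ^ ex (j + 2)) :
    (1 / 4 : ℝ) ^ ex j ≤ S n := by
  have hodd : Odd (2 * n + 1) := ⟨n, rfl⟩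
  rcases Nat.even_or_odd' j with ⟨k, hk | hk⟩
  · have := sin_lower (f := fun k => ex (2 * k)) step1 (fun k => ex_pos _) k (2 * n + 1) hodd
      (by
        have e : 2 * (k + 1) = j + 2 := by omega
        simp only [e]
        rw [← hk]
        exact h)
    rw [← hk] at this
    unfold S phi1
    have h2 := sq_nonneg (Real.sin (Real.pi * ((2 * n + 1 : ℕ) * phi2)))
    linarith
  · have := sin_lower (f := fun k => ex (2 * k + 1)) step2 (fun k => ex_pos _) k (2 * n + 1) hodd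
      (by
        have e : 2 * (k + 1) + 1 = j + 2 := by omega
        simp only [e]
        rw [← hk]
        exact h)
    rw [← hk] at this
    unfold S phi2
    have h2 := sq_nonneg (Real.sin (Real.pi * ((2 * n + 1 : ℕ) * phi1)))
    linarith

/-- The odd multiples approach the lattice only logarithmically. -/
lemma S_lower (n : ℕ) : 1 ≤ 8 * Real.log (n + 3) * S n := by
  have hex : ∃ j, (2 * n + 1) * 2 ^ (ex j + 3) ≤ 2 ^ ex (j + 2) := by
    refine ⟨n + 1, ?_⟩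
    have h1 : 2 * n + 1 ≤ 2 ^ (2 * n + 1) := Nat.lt_two_pow_self.le
    have h2 := four_mul_ex (n + 1)
    have h3 := four_mul_ex (n + 2)
    have h4 := lt_ex (n + 1)
    calc (2 * n + 1) * 2 ^ (ex (n + 1) + 3) ≤ 2 ^ (2 * n + 1) * 2 ^ (ex (n + 1) + 3) := by gcongr
      _ = 2 ^ (2 * n + 1 + (ex (n + 1) + 3)) := by rw [← pow_add]
      _ ≤ 2 ^ ex (n + 1 + 2) := by
        apply Nat.pow_le_pow_right (by norm_num)
        have e1 : n + 1 + 2 = n + 2 + 1 := by ring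
        have e2 : n + 1 + 1 = n + 2 := by ring
        rw [e1]
        rw [e2] at h2
        omega
  classical
  have hlog1 : 1 ≤ Real.log (n + 3) := by
    rw [Real.le_log_iff_exp_le (by positivity)]
    have := Real.exp_one_lt_d9
    have hn0 : (0 : ℝ) ≤ n := Nat.cast_nonneg n
    linarith
  set j := Nat.find hex with hj
  have hspec := Nat.find_spec hex
  rw [← hj] at hspec
  have hS := S_ge j n hspec
  rcases Nat.eq_zero_or_pos j with h0 | hpos
  · rw [h0, ex_zero] at hS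
    nlinarith
  · obtain ⟨i, hi⟩ : ∃ i, j = i + 1 := ⟨j - 1, by omega⟩
    have hlt : i < Nat.find hex := by rw [← hj]; omega
    have hmin := Nat.find_min hex hlt
    push Not at hmin
    -- 2 ^ ex (i+2) < (2n+1) * 2^(ex i + 3)
    have x1 := four_mul_ex i
    have x2 := four_mul_ex (i + 1)
    have x0 := ex_pos i
    have y : i + 1 + 1 = i + 2 := by ring
    rw [y] at x2
    have hhalf : 2 * (ex i + 3) ≤ ex (i + 2) := by omega
    rw [hi, one_div, inv_pow] at hS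
    have hcast : ((4 : ℝ) ^ ex (i + 1)) = ex (i + 2) := by
      have : ex (i + 2) = 4 ^ ex (i + 1) := ex_succ (i + 1)
      rw [this]; push_cast; rfl
    rw [hcast] at hS
    have hE : (0 : ℝ) < ex (i + 2) := by
      have := ex_pos (i + 2)
      exact_mod_cast (by omega : 0 < ex (i + 2))
    -- log inequality
    have hlt' : (2 : ℝ) ^ ex (i + 2) ≤ (2 * n + 1) * 2 ^ (ex i + 3) := by exact_mod_cast hmin.le
    have hl := Real.log_le_log (by positivity) hlt'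
    rw [Real.log_mul (by positivity) (by positivity), Real.log_pow, Real.log_pow] at hl
    have hhR : (2 : ℝ) * ((ex i : ℝ) + 3) ≤ ex (i + 2) := by exact_mod_cast hhalf
    push_cast at hl
    have l2 := Real.log_two_gt_d9
    have l2' : 0 < Real.log 2 := by linarith
    have hn3 : Real.log (2 * n + 1) ≤ 2 * Real.log (n + 3) := by
      rw [← Real.log_rpow (by positivity)]
      apply Real.log_le_log (by positivity)
      norm_cast
      nlinarith
    have h1 : (ex (i + 2) : ℝ) * Real.log 2 / 2 ≤ 2 * Real.log (n + 3) := by nlinarith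
    have h2 : (ex (i + 2) : ℝ) ≤ 8 * Real.log (n + 3) := by nlinarith
    calc (1 : ℝ) = ex (i + 2) * (ex (i + 2) : ℝ)⁻¹ := by field_simp
      _ ≤ 8 * Real.log (n + 3) * S n := by gcongr

end Pool.Agent.MP_653f52_an
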