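import Mathlib

open Filter Topology Set
open scoped Matrix.Norms.Operator

namespace Pool.Agent.MP_653f52_an

/-! ### Discrete time -/

/-- `x` is a trajectory of the discrete-time switching system given by `𝒜`. -/
def IsDTraj {d : ℕ} (𝒜 : Set (Matrix (Fin d) (Fin d) ℝ)) (x : ℕ → Fin d → ℝ) : Prop :=
  ∃ A : ℕ → Matrix (Fin d) (Fin d) ℝ, (∀ k, A k ∈ 𝒜) ∧
    ∀ k, x (k + 1) = Matrix.mulVec (A k) (x k)

/-- The product `A (k-1) * ... * A 1 * A 0`. -/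
def prodMat {d : ℕ} (A : ℕ → Matrix (Fin d) (Fin d) ℝ) : ℕ → Matrix (Fin d) (Fin d) ℝ
  | 0 => 1
  | k + 1 => A k * prodMat A k

/-- The largest norm of a product of `k` matrices from `𝒜` (operator norm with respect to the
sup norm of `ℝ^d`). -/
noncomputable def maxNorm {d : ℕ} (𝒜 : Set (Matrix (Fin d) (Fin d) ℝ)) (k : ℕ) : ℝ :=
  sSup {r : ℝ | ∃ A : ℕ → Matrix (Fin d) (Fin d) ℝ, (∀ j, A j ∈ 𝒜) ∧ r = ‖prodMat A k‖}

/-- The joint spectral radius of `𝒜` exists and equals `ρ`. -/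
def HasJSR {d : ℕ} (𝒜 : Set (Matrix (Fin d) (Fin d) ℝ)) (ρ : ℝ) : Prop :=
  Tendsto (fun k : ℕ => maxNorm 𝒜 k ^ (1 / (k : ℝ))) atTop (𝓝 ρ)

/-- The discrete-time system is bounded: every trajectory is bounded. -/
def DBounded {d : ℕ} (𝒜 : Set (Matrix (Fin d) (Fin d) ℝ)) : Prop :=
  ∀ x : ℕ → Fin d → ℝ, IsDTraj 𝒜 x → ∃ C : ℝ, ∀ k, ‖x k‖ ≤ C

/-- Marginal instability in discrete time: joint spectral radius one, but not bounded. -/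
def DMarginallyUnstable {d : ℕ} (𝒜 : Set (Matrix (Fin d) (Fin d) ℝ)) : Prop :=
  HasJSR 𝒜 1 ∧ ¬ DBounded 𝒜

/-- Subpolynomial growth in discrete time: every trajectory is `O(k^α)` for every `α > 0`. -/
def DSubpolynomial {d : ℕ} (𝒜 : Set (Matrix (Fin d) (Fin d) ℝ)) : Prop :=
  ∀ x : ℕ → Fin d → ℝ, IsDTraj 𝒜 x → ∀ α : ℝ, 0 < α →
    x =O[atTop] fun k : ℕ => (k : ℝ) ^ α

/-- Logarithmic growth bound in discrete time, uniform in the initial vector. -/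
def DLogGrowth {d : ℕ} (𝒜 : Set (Matrix (Fin d) (Fin d) ℝ)) : Prop :=
  ∃ C : ℝ, ∀ x : ℕ → Fin d → ℝ, IsDTraj 𝒜 x → ∀ k : ℕ, ‖x k‖ ≤ C * Real.log (k + 3) * ‖x 0‖

/-! ### Continuous time -/

/-- `x : [0, ∞) → ℝ^d` is a trajectory of the continuous-time switching system `𝒜`: for some
measurable switching law `A` with values in `𝒜`, `x` is a Caratheodory solution of
`x' = A(t) x`, i.e. `x` is continuous and `x(t) = x(0) + ∫₀ᵗ A(s) x(s) ds` for all `t ≥ 0`. -/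
def IsCTraj {d : ℕ} (𝒜 : Set (Matrix (Fin d) (Fin d) ℝ)) (x : ℝ → Fin d → ℝ) : Prop :=
  ∃ A : ℝ → Matrix (Fin d) (Fin d) ℝ, (∀ i j, Measurable fun t => A t i j) ∧
    (∀ t, 0 ≤ t → A t ∈ 𝒜) ∧ ContinuousOn x (Ici 0) ∧
    ∀ t, 0 ≤ t → x t = x 0 + ∫ s in (0 : ℝ)..t, Matrix.mulVec (A s) (x s)

/-- The Lyapunov exponent: supremum over all nonzero trajectories of
`limsup (1/t) log ‖x(t)‖` (the zero trajectory has exponent `-∞`). -/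
noncomputable def lyapunov {d : ℕ} (𝒜 : Set (Matrix (Fin d) (Fin d) ℝ)) : EReal :=
  sSup {l : EReal | ∃ x : ℝ → Fin d → ℝ, IsCTraj 𝒜 x ∧ x 0 ≠ 0 ∧
    l = limsup (fun t : ℝ => ((1 / t * Real.log ‖x t‖ : ℝ) : EReal)) atTop}

/-- The continuous-time system is bounded: every trajectory is bounded on `[0, ∞)`. -/
def CBounded {d : ℕ} (𝒜 : Set (Matrix (Fin d) (Fin d) ℝ)) : Prop :=
  ∀ x : ℝ → Fin d → ℝ, IsCTraj 𝒜 x → ∃ C : ℝ, ∀ t, 0 ≤ t → ‖x t‖ ≤ C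

/-- Marginal instability in continuous time: Lyapunov exponent zero, but not bounded. -/
def CMarginallyUnstable {d : ℕ} (𝒜 : Set (Matrix (Fin d) (Fin d) ℝ)) : Prop :=
  lyapunov 𝒜 = 0 ∧ ¬ CBounded 𝒜

/-- Subpolynomial growth in continuous time. -/
def CSubpolynomial {d : ℕ} (𝒜 : Set (Matrix (Fin d) (Fin d) ℝ)) : Prop :=
  ∀ x : ℝ → Fin d → ℝ, IsCTraj 𝒜 x → ∀ α : ℝ, 0 < α →
    x =O[atTop] fun t : ℝ => t ^ α

/-- Logarithmic growth bound in continuous time. -/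
def CLogGrowth {d : ℕ} (𝒜 : Set (Matrix (Fin d) (Fin d) ℝ)) : Prop :=
  ∃ C : ℝ, ∀ x : ℝ → Fin d → ℝ, IsCTraj 𝒜 x → ∀ t : ℝ, 0 ≤ t →
    ‖x t‖ ≤ C * Real.log (t + 3) * ‖x 0‖

end Pool.Agent.MP_653f52_an
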