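import Mathlib
import Pool.Agent.MP_653f52_an.Defs

open Filter Topology Set
open scoped Matrix.Norms.Operator

namespace Pool.Agent.MP_653f52_an

variable {d : ℕ}

lemma tendsto_log_add_three_div : Tendsto (fun x : ℝ => Real.log (x + 3) / x) atTop (𝓝 0) := by
  have h := Real.tendsto_pow_log_div_mul_add_atTop 1 (-3) 1 one_ne_zero
  have h2 : Tendsto (fun x : ℝ => x + 3) atTop atTop := tendsto_atTop_add_const_right _ _ tendsto_id
  have h3 := h.comp h2
  refine h3.congr (fun x => ?_)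
  simp

lemma log_add_three_isBigO (α : ℝ) (hα : 0 < α) :
    (fun x : ℝ => Real.log (x + 3)) =O[atTop] fun x : ℝ => x ^ α := by
  have h1 : (fun x : ℝ => Real.log (x + 3)) =O[atTop] fun x : ℝ => Real.log x := by
    refine Asymptotics.IsBigO.of_bound 2 ?_
    filter_upwards [eventually_ge_atTop (3 : ℝ)] with x hx
    have hx0 : 0 < x := by linarith
    have h2 : Real.log (x + 3) ≤ 2 * Real.log x := by
      rw [← Real.log_rpow hx0]
      apply Real.log_le_log (by positivity)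
      norm_cast
      nlinarith
    have h3 : 0 ≤ Real.log (x + 3) := Real.log_nonneg (by linarith)
    have h4 : 0 ≤ Real.log x := Real.log_nonneg (by linarith)
    rw [Real.norm_of_nonneg h3, Real.norm_of_nonneg h4]
    exact h2
  exact h1.trans (isLittleO_log_rpow_atTop hα).isBigO

lemma dsub_of_log {𝒜 : Set (Matrix (Fin d) (Fin d) ℝ)} (h : DLogGrowth 𝒜) :
    DSubpolynomial 𝒜 := by
  obtain ⟨C, hC⟩ := h
  intro x hx α hα
  have h1 : x =O[atTop] fun k : ℕ => Real.log ((k : ℝ) + 3) := by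
    refine Asymptotics.IsBigO.of_bound (C * ‖x 0‖) (Eventually.of_forall fun k => ?_)
    have := hC x hx k
    have h3 : 0 ≤ Real.log ((k : ℝ) + 3) :=
      Real.log_nonneg (by have : (0 : ℝ) ≤ k := Nat.cast_nonneg k; linarith)
    rw [Real.norm_of_nonneg h3]
    linarith [this]
  exact h1.trans ((log_add_three_isBigO α hα).comp_tendsto tendsto_natCast_atTop_atTop)

lemma csub_of_log {𝒜 : Set (Matrix (Fin d) (Fin d) ℝ)} (h : CLogGrowth 𝒜) :
    CSubpolynomial 𝒜 := by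
  obtain ⟨C, hC⟩ := h
  intro x hx α hα
  have h1 : x =O[atTop] fun k : ℝ => Real.log (k + 3) := by
    refine Asymptotics.IsBigO.of_bound (C * ‖x 0‖) ?_
    filter_upwards [eventually_ge_atTop (0 : ℝ)] with k hk
    have := hC x hx k hk
    have h3 : 0 ≤ Real.log (k + 3) := Real.log_nonneg (by linarith)
    rw [Real.norm_of_nonneg h3]
    linarith [this]
  exact h1.trans (log_add_three_isBigO α hα)

lemma traj_of_prod {𝒜 : Set (Matrix (Fin d) (Fin d) ℝ)} (A : ℕ → Matrix (Fin d) (Fin d) ℝ)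
    (hA : ∀ k, A k ∈ 𝒜) (v : Fin d → ℝ) :
    IsDTraj 𝒜 (fun k => Matrix.mulVec (prodMat A k) v) :=
  ⟨A, hA, fun k => by simp [prodMat, Matrix.mulVec_mulVec]⟩

lemma norm_prod_le {𝒜 : Set (Matrix (Fin d) (Fin d) ℝ)} {C : ℝ}
    (hC : ∀ x : ℕ → Fin d → ℝ, IsDTraj 𝒜 x → ∀ k : ℕ, ‖x k‖ ≤ C * Real.log (k + 3) * ‖x 0‖)
    (hC0 : 0 ≤ C)
    (A : ℕ → Matrix (Fin d) (Fin d) ℝ) (hA : ∀ k, A k ∈ 𝒜) (k : ℕ) :
    ‖prodMat A k‖ ≤ C * Real.log (k + 3) := by
  have hlog : 0 ≤ Real.log ((k : ℝ) + 3) :=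
      Real.log_nonneg (by have : (0 : ℝ) ≤ k := Nat.cast_nonneg k; linarith)
  rw [Matrix.linfty_opNorm_eq_opNorm]
  refine ContinuousLinearMap.opNorm_le_bound _ (by positivity) (fun v => ?_)
  have := hC _ (traj_of_prod A hA v) k
  simpa [prodMat] using this

lemma one_le_norm_prod {A0 : Matrix (Fin d) (Fin d) ℝ} {e : Fin d → ℝ} (he : e ≠ 0)
    (hfix : Matrix.mulVec A0 e = e) (k : ℕ) : 1 ≤ ‖prodMat (fun _ => A0) k‖ := by
  have h1 : Matrix.mulVec (prodMat (fun _ => A0) k) e = e := by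
    induction k with
    | zero => simp [prodMat]
    | succ k ih => simp [prodMat, ← Matrix.mulVec_mulVec, ih, hfix]
  have h2 := Matrix.linfty_opNorm_mulVec (prodMat (fun _ => A0) k) e
  rw [h1] at h2
  have h3 : 0 < ‖e‖ := norm_pos_iff.2 he
  by_contra hlt
  push Not at hlt
  nlinarith

lemma jsr_of_log {𝒜 : Set (Matrix (Fin d) (Fin d) ℝ)} (h : DLogGrowth 𝒜)
    (hfix : ∃ A0 ∈ 𝒜, ∃ e : Fin d → ℝ, e ≠ 0 ∧ Matrix.mulVec A0 e = e) :
    HasJSR 𝒜 1 := by
  obtain ⟨C0, hC0⟩ := h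
  obtain ⟨A0, hA0, e, he, hfe⟩ := hfix
  set C := max C0 1 with hCdef
  have hC1 : 1 ≤ C := le_max_right _ _
  have hC : ∀ x : ℕ → Fin d → ℝ, IsDTraj 𝒜 x → ∀ k : ℕ,
      ‖x k‖ ≤ C * Real.log (k + 3) * ‖x 0‖ := by
    intro x hx k
    refine (hC0 x hx k).trans ?_
    have hlog : 0 ≤ Real.log ((k : ℝ) + 3) :=
      Real.log_nonneg (by have : (0 : ℝ) ≤ k := Nat.cast_nonneg k; linarith)
    gcongr
    exact le_max_left _ _
  have hub : ∀ k, ∀ r ∈ {r : ℝ | ∃ A : ℕ → Matrix (Fin d) (Fin d) ℝ, (∀ j, A j ∈ 𝒜) ∧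
      r = ‖prodMat A k‖}, r ≤ C * Real.log (k + 3) := by
    rintro k r ⟨A, hA, rfl⟩
    exact norm_prod_le hC (by linarith) A hA k
  have hlow : ∀ k, 1 ≤ maxNorm 𝒜 k := by
    intro k
    refine (one_le_norm_prod he hfe k).trans ?_
    exact le_csSup ⟨_, hub k⟩ ⟨fun _ => A0, fun _ => hA0, rfl⟩
  have hup : ∀ k, maxNorm 𝒜 k ≤ C * Real.log (k + 3) := by
    intro k
    exact csSup_le ⟨_, fun _ => A0, fun _ => hA0, rfl⟩ (hub k)
  have hup2 : ∀ k : ℕ, maxNorm 𝒜 k ≤ C * (k + 3) := by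
    intro k
    refine (hup k).trans ?_
    have : Real.log ((k : ℝ) + 3) ≤ (k : ℝ) + 3 := by
      have h0 : (0 : ℝ) < (k : ℝ) + 3 := by positivity
      have := Real.log_le_sub_one_of_pos h0
      linarith
    gcongr
  have hlim : Tendsto (fun k : ℕ => Real.exp (Real.log C / k + Real.log ((k : ℝ) + 3) / k))
      atTop (𝓝 1) := by
    have h1 : Tendsto (fun k : ℕ => Real.log C / (k : ℝ)) atTop (𝓝 0) :=
      tendsto_const_div_atTop_nhds_zero_nat _
    have h2 : Tendsto (fun k : ℕ => Real.log ((k : ℝ) + 3) / k) atTop (𝓝 0) :=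
      tendsto_log_add_three_div.comp tendsto_natCast_atTop_atTop
    have h3 := (Real.continuous_exp.tendsto _).comp (h1.add h2)
    simpa [Function.comp_def] using h3
  refine tendsto_of_tendsto_of_tendsto_of_le_of_le' tendsto_const_nhds hlim ?_ ?_
  · filter_upwards with k
    exact Real.one_le_rpow (hlow k) (by positivity)
  · filter_upwards [eventually_gt_atTop 0] with k hk
    have hk' : (0 : ℝ) < k := by exact_mod_cast hk
    have hpos : 0 < maxNorm 𝒜 k := lt_of_lt_of_le one_pos (hlow k)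
    calc maxNorm 𝒜 k ^ (1 / (k : ℝ)) ≤ (C * (k + 3)) ^ (1 / (k : ℝ)) := by
          apply Real.rpow_le_rpow hpos.le (hup2 k) (by positivity)
      _ = Real.exp (Real.log C / k + Real.log ((k : ℝ) + 3) / k) := by
          rw [Real.rpow_def_of_pos (by positivity), Real.log_mul (by positivity) (by positivity)]
          congr 1
          ring

end Pool.Agent.MP_653f52_an
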