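import Mathlib
import Pool.Agent.MP_653f52_an.General

open Filter Topology Set MeasureTheory
open scoped Matrix.Norms.Operator

namespace Pool.Agent.MP_653f52_an

lemma log_ge_one {t : ℝ} (ht : 0 ≤ t) : 1 ≤ Real.log (t + 3) := by
  rw [Real.le_log_iff_exp_le (by positivity)]
  have := Real.exp_one_lt_d9
  linarith

/-- the tangent line bound for `-c log c` -/
lemma negMulLog_le {c L : ℝ} (hc : 0 ≤ c) :
    Real.negMulLog c ≤ L * c + Real.exp (-L - 1) := by
  rcases hc.eq_or_lt with rfl | hc
  · simp; positivity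
  · set y := -Real.log c - L with hy
    have hcy : c = Real.exp (-y - L) := by
      rw [hy]
      rw [show -(-Real.log c - L) - L = Real.log c by ring, Real.exp_log hc]
    have h1 : y ≤ Real.exp (y - 1) := by
      have := Real.add_one_le_exp (y - 1)
      linarith
    have h2 : c * y ≤ Real.exp (-L - 1) := by
      calc c * y ≤ c * Real.exp (y - 1) := by gcongr
        _ = Real.exp (-L - 1) := by
          rw [hcy, ← Real.exp_add]; congr 1; ring
    unfold Real.negMulLog
    have : -c * Real.log c = c * y + L * c := by rw [hy]; ring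
    rw [this]; linarith

section Scalar

variable {c v : ℝ → ℝ}

lemma intble_v (hv : ContinuousOn v (Ici 0)) {a b : ℝ} (ha : 0 ≤ a) (hab : a ≤ b) :
    IntervalIntegrable v volume a b := by
  apply ContinuousOn.intervalIntegrable
  rw [uIcc_of_le hab]
  exact hv.mono (fun x hx => ha.trans hx.1)

lemma intble_gv {g : ℝ → ℝ} (hg : Measurable g) {K : ℝ} (hgK : ∀ t, 0 ≤ t → |g t| ≤ K)
    (hv : ContinuousOn v (Ici 0)) {a b : ℝ} (ha : 0 ≤ a) (hab : a ≤ b) :
    IntervalIntegrable (fun s => g s * v s) volume a b := by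
  have h1 := intble_v hv ha hab
  rw [intervalIntegrable_iff_integrableOn_Ioc_of_le hab] at h1 ⊢
  refine Integrable.bdd_mul (c := K) h1 hg.aestronglyMeasurable ?_
  rw [ae_restrict_iff' measurableSet_Ioc]
  exact Eventually.of_forall fun s hs => hgK s (ha.trans hs.1.le)

/-- One step of length at most one does not change the sign. -/
lemma sign_step (hc : Measurable c) (hc0 : ∀ t, 0 ≤ t → 0 ≤ c t) (hc1 : ∀ t, 0 ≤ t → c t ≤ 1 / 2)
    (hv : ContinuousOn v (Ici 0)) (heq : ∀ t, 0 ≤ t → v t = v 0 - ∫ s in (0 : ℝ)..t, c s * v s)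
    {s : ℝ} (hs : 0 ≤ s) (hvs : 0 ≤ v s) : ∀ t ∈ Icc s (s + 1), 0 ≤ v t := by
  have hsub : Icc s (s + 1) ⊆ Ici 0 := fun x hx => hs.trans hx.1
  have hcont : ContinuousOn (fun t => |v t|) (Icc s (s + 1)) := (hv.mono hsub).abs
  obtain ⟨m, hm, hmax⟩ := isCompact_Icc.exists_isMaxOn (nonempty_Icc.2 (by linarith)) hcont
  set M := |v m| with hM
  have hmaxM : ∀ t ∈ Icc s (s + 1), |v t| ≤ M := fun t ht => hmax ht
  have hdiff : ∀ t ∈ Icc s (s + 1), |v t - v s| ≤ M / 2 := by
    intro t ht
    have h0t : 0 ≤ t := hs.trans ht.1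
    have habs : ∀ t, 0 ≤ t → |c t| ≤ 1 / 2 := by
      intro t ht
      rw [abs_of_nonneg (hc0 t ht)]; exact hc1 t ht
    have i1 := intble_gv hc habs hv le_rfl hs
    have i2 := intble_gv hc habs hv hs ht.1
    have e : v t - v s = -∫ τ in s..t, c τ * v τ := by
      rw [heq t h0t, heq s hs, ← intervalIntegral.integral_add_adjacent_intervals i1 i2]; ring
    rw [e, abs_neg]
    have hb : ∀ τ ∈ Set.uIoc s t, ‖c τ * v τ‖ ≤ M / 2 := by
      intro τ hτ
      rw [uIoc_of_le ht.1] at hτ
      have hτ0 : 0 ≤ τ := hs.trans hτ.1.le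
      rw [Real.norm_eq_abs, abs_mul]
      have h1 := habs τ hτ0
      have h2 := hmaxM τ ⟨hτ.1.le, hτ.2.trans ht.2⟩
      have h3 := abs_nonneg (c τ)
      have h4 := abs_nonneg (v τ)
      nlinarith
    have h5 := intervalIntegral.norm_integral_le_of_norm_le_const hb
    rw [Real.norm_eq_abs] at h5
    refine h5.trans ?_
    rw [abs_of_nonneg (by linarith [ht.1])]
    have hM0 : 0 ≤ M := abs_nonneg _
    have : t - s ≤ 1 := by linarith [ht.2]
    nlinarith
  have hMle : M ≤ 2 * v s := by
    have h1 := hdiff m hm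
    have h2 : M ≤ |v s| + |v m - v s| := by
      rw [hM]
      calc |v m| = |v s + (v m - v s)| := by ring_nf
        _ ≤ _ := abs_add_le _ _
    rw [abs_of_nonneg hvs] at h2
    linarith
  intro t ht
  have h1 := hdiff t ht
  rw [abs_le] at h1
  linarith

lemma sign_all (hc : Measurable c) (hc0 : ∀ t, 0 ≤ t → 0 ≤ c t) (hc1 : ∀ t, 0 ≤ t → c t ≤ 1 / 2)
    (hv : ContinuousOn v (Ici 0)) (heq : ∀ t, 0 ≤ t → v t = v 0 - ∫ s in (0 : ℝ)..t, c s * v s)
    (h0 : 0 ≤ v 0) : ∀ t, 0 ≤ t → 0 ≤ v t := by
  have hn : ∀ n : ℕ, 0 ≤ v n := by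
    intro n
    induction n with
    | zero => simpa using h0
    | succ n ih =>
      have := sign_step hc hc0 hc1 hv heq (Nat.cast_nonneg n) ih (n + 1)
        ⟨by linarith, le_rfl⟩
      push_cast
      exact this
  intro t ht
  exact sign_step hc hc0 hc1 hv heq (Nat.cast_nonneg ⌊t⌋₊) (hn _) t
    ⟨Nat.floor_le ht, (Nat.lt_floor_add_one t).le⟩

lemma scalar_bound (hc : Measurable c) (hc0 : ∀ t, 0 ≤ t → 0 ≤ c t)
    (hc1 : ∀ t, 0 ≤ t → c t ≤ 1 / 2)
    (hv : ContinuousOn v (Ici 0)) (heq : ∀ t, 0 ≤ t → v t = v 0 - ∫ s in (0 : ℝ)..t, c s * v s)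
    (h0 : 0 ≤ v 0) (t : ℝ) (ht : 0 ≤ t) :
    |v t| ≤ v 0 ∧
      |∫ s in (0 : ℝ)..t, Real.negMulLog (c s) * v s| ≤ (Real.log (t + 3) + 1) * v 0 := by
  have hpos := sign_all hc hc0 hc1 hv heq h0
  have habs : ∀ t, 0 ≤ t → |c t| ≤ 1 / 2 := by
    intro t ht
    rw [abs_of_nonneg (hc0 t ht)]; exact hc1 t ht
  have icv : ∀ t, 0 ≤ t → IntervalIntegrable (fun s => c s * v s) volume 0 t :=
    fun t ht => intble_gv hc habs hv le_rfl ht
  have hle : ∀ t, 0 ≤ t → v t ≤ v 0 := by
    intro t ht
    rw [heq t ht]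
    have : 0 ≤ ∫ s in (0 : ℝ)..t, c s * v s := by
      apply intervalIntegral.integral_nonneg ht
      intro s hs
      exact mul_nonneg (hc0 s hs.1) (hpos s hs.1)
    linarith
  refine ⟨by rw [abs_of_nonneg (hpos t ht)]; exact hle t ht, ?_⟩
  set L := Real.log (t + 3) with hL
  have hL1 : 1 ≤ L := log_ge_one ht
  have hnm : ∀ s, 0 ≤ s → 0 ≤ Real.negMulLog (c s) := fun s hs =>
    Real.negMulLog_nonneg (hc0 s hs) ((hc1 s hs).trans (by norm_num))
  have hnn : 0 ≤ ∫ s in (0 : ℝ)..t, Real.negMulLog (c s) * v s := by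
    apply intervalIntegral.integral_nonneg ht
    intro s hs
    exact mul_nonneg (hnm s hs.1) (hpos s hs.1)
  rw [abs_of_nonneg hnn]
  have hnK : ∀ s, 0 ≤ s → |Real.negMulLog (c s)| ≤ 1 := by
    intro s hs
    rw [abs_of_nonneg (hnm s hs)]
    have h1 := negMulLog_le (L := 0) (hc0 s hs)
    have h2 : Real.exp (-0 - 1) ≤ 1 := by
      rw [← Real.exp_zero]
      exact Real.exp_le_exp.2 (by norm_num)
    linarith
  have i1 : IntervalIntegrable (fun s => Real.negMulLog (c s) * v s) volume 0 t :=
    intble_gv (Real.continuous_negMulLog.measurable.comp hc) hnK hv le_rfl ht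
  have i2 : IntervalIntegrable v volume 0 t := intble_v hv le_rfl ht
  have hmono : ∫ s in (0 : ℝ)..t, Real.negMulLog (c s) * v s
      ≤ ∫ s in (0 : ℝ)..t, (L * (c s * v s) + Real.exp (-L - 1) * v s) := by
    apply intervalIntegral.integral_mono_on ht i1
      (((icv t ht).const_mul L).add (i2.const_mul _))
    intro s hs
    have h1 := negMulLog_le (L := L) (hc0 s hs.1)
    have h2 := hpos s hs.1
    calc Real.negMulLog (c s) * v s ≤ (L * c s + Real.exp (-L - 1)) * v s := by gcongr
      _ = _ := by ring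
  refine hmono.trans ?_
  rw [intervalIntegral.integral_add ((icv t ht).const_mul L) (i2.const_mul _),
    intervalIntegral.integral_const_mul, intervalIntegral.integral_const_mul]
  have e1 : ∫ s in (0 : ℝ)..t, c s * v s = v 0 - v t := by rw [heq t ht]; ring
  have e2 : ∫ s in (0 : ℝ)..t, v s ≤ t * v 0 := by
    have h1 : ∫ s in (0 : ℝ)..t, v s ≤ ∫ s in (0 : ℝ)..t, v 0 := by
      apply intervalIntegral.integral_mono_on ht i2 (by simp)
      intro s hs
      exact hle s hs.1
    simpa using h1
  have e3 : Real.exp (-L - 1) * (t + 3) ≤ 1 := by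
    have : t + 3 = Real.exp L := by rw [hL, Real.exp_log (by positivity)]
    rw [this, ← Real.exp_add, show -L - 1 + L = -1 by ring]
    calc Real.exp (-1) ≤ Real.exp 0 := Real.exp_le_exp.2 (by norm_num)
      _ = 1 := Real.exp_zero
  rw [e1]
  have hvt := hpos t ht
  have he := Real.exp_pos (-L - 1)
  calc L * (v 0 - v t) + Real.exp (-L - 1) * ∫ s in (0 : ℝ)..t, v s
      ≤ L * v 0 + Real.exp (-L - 1) * (t * v 0) := by
        gcongr
        linarith
    _ ≤ L * v 0 + 1 * v 0 := by
        have : Real.exp (-L - 1) * t ≤ 1 := by nlinarith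
        nlinarith
    _ = (L + 1) * v 0 := by ring

end Scalar

/-- the matrices of the continuous-time family -/
noncomputable def matC (c : ℝ) : Matrix (Fin 2) (Fin 2) ℝ := !![0, Real.negMulLog c; 0, -c]

/-- the continuous-time family: `[[0, c log(1/c)], [0, -c]]`, `0 ≤ c ≤ 1/2`. -/
noncomputable def famC : Set (Matrix (Fin 2) (Fin 2) ℝ) := matC '' Icc 0 (1 / 2)

lemma continuous_matC : Continuous matC := by
  unfold matC
  refine continuous_pi fun i => continuous_pi fun j => ?_
  have := Real.continuous_negMulLog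
  fin_cases i <;> fin_cases j <;> simp <;> fun_prop

lemma famC_compact : IsCompact famC := isCompact_Icc.image continuous_matC

lemma famC_nonempty : famC.Nonempty := ⟨matC 0, 0, by simp, rfl⟩

lemma matC_mulVec (c : ℝ) (x : Fin 2 → ℝ) :
    Matrix.mulVec (matC c) x = ![Real.negMulLog c * x 1, -(c * x 1)] := by
  ext i
  fin_cases i <;> simp [matC, Matrix.mulVec, dotProduct, Fin.sum_univ_succ]

/-- coordinates of a trajectory -/
lemma ctraj_coord {x : ℝ → Fin 2 → ℝ} (hx : IsCTraj famC x) :
    ∃ c : ℝ → ℝ, Measurable c ∧ (∀ t, 0 ≤ t → 0 ≤ c t) ∧ (∀ t, 0 ≤ t → c t ≤ 1 / 2) ∧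
      ContinuousOn (fun t => x t 1) (Ici 0) ∧
      (∀ t, 0 ≤ t → x t 1 = x 0 1 - ∫ s in (0 : ℝ)..t, c s * x s 1) ∧
      (∀ t, 0 ≤ t → x t 0 = x 0 0 + ∫ s in (0 : ℝ)..t, Real.negMulLog (c s) * x s 1) := by
  obtain ⟨A, hmeas, hmem, hcont, heq⟩ := hx
  set c : ℝ → ℝ := fun t => -(A t 1 1) with hc
  have hcm : Measurable c := (hmeas 1 1).neg
  have hA : ∀ t, 0 ≤ t → c t ∈ Icc (0 : ℝ) (1 / 2) ∧ A t = matC (c t) := by
    intro t ht
    obtain ⟨c', hc', h⟩ := hmem t ht
    have : c t = c' := by simp [hc, ← h, matC]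
    rw [this]
    exact ⟨hc', h.symm⟩
  have hv : ContinuousOn (fun t => x t 1) (Ici 0) := by
    exact (continuous_apply 1).comp_continuousOn hcont
  have hcK : ∀ t, 0 ≤ t → |c t| ≤ 1 / 2 := by
    intro t ht
    rw [abs_of_nonneg (hA t ht).1.1]; exact (hA t ht).1.2
  have hnK : ∀ s, 0 ≤ s → |Real.negMulLog (c s)| ≤ 1 := by
    intro s hs
    obtain ⟨⟨h0, h1⟩, -⟩ := hA s hs
    rw [abs_of_nonneg (Real.negMulLog_nonneg h0 (h1.trans (by norm_num)))]
    have h1 := negMulLog_le (L := 0) h0
    have h2 : Real.exp (-0 - 1) ≤ 1 := by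
      rw [← Real.exp_zero]
      exact Real.exp_le_exp.2 (by norm_num)
    linarith
  have hI : ∀ t, 0 ≤ t → ∀ i : Fin 2, IntervalIntegrable
      (fun s => (![Real.negMulLog (c s) * x s 1, -(c s * x s 1)] : Fin 2 → ℝ) i) volume 0 t := by
    intro t ht i
    have i1 : IntervalIntegrable (fun s => Real.negMulLog (c s) * x s 1) volume 0 t :=
      intble_gv (Real.continuous_negMulLog.measurable.comp hcm) hnK hv le_rfl ht
    have i2 : IntervalIntegrable (fun s => c s * x s 1) volume 0 t :=
      intble_gv hcm hcK hv le_rfl ht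
    fin_cases i
    · exact i1
    · exact i2.neg
  have hint : ∀ t, 0 ≤ t → ∀ i : Fin 2, x t i = x 0 i +
      ∫ s in (0 : ℝ)..t, (![Real.negMulLog (c s) * x s 1, -(c s * x s 1)] : Fin 2 → ℝ) i := by
    intro t ht i
    have h1 := heq t ht
    have h2 : ∫ s in (0 : ℝ)..t, Matrix.mulVec (A s) (x s)
        = ∫ s in (0 : ℝ)..t, (![Real.negMulLog (c s) * x s 1, -(c s * x s 1)] : Fin 2 → ℝ) := by
      apply intervalIntegral.integral_congr
      intro s hs
      rw [uIcc_of_le ht] at hs
      simp only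
      rw [(hA s hs.1).2, matC_mulVec]
    rw [h2] at h1
    have h3 : (∫ s in (0 : ℝ)..t, (![Real.negMulLog (c s) * x s 1, -(c s * x s 1)] : Fin 2 → ℝ)) i
        = ∫ s in (0 : ℝ)..t,
          (![Real.negMulLog (c s) * x s 1, -(c s * x s 1)] : Fin 2 → ℝ) i := by
      rw [intervalIntegral.integral_of_le ht, intervalIntegral.integral_of_le ht]
      apply eval_integral
      intro j
      have := hI t ht j
      rw [intervalIntegrable_iff_integrableOn_Ioc_of_le ht] at this
      exact this
    rw [← h3, ← Pi.add_apply, ← h1]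
  refine ⟨c, hcm, fun t ht => (hA t ht).1.1, fun t ht => (hA t ht).1.2, hv, ?_, ?_⟩
  · intro t ht
    have := hint t ht 1
    simp only [Matrix.cons_val_one, Matrix.cons_val_fin_one] at this
    rw [this, intervalIntegral.integral_neg]; ring
  · intro t ht
    have := hint t ht 0
    simpa using this

lemma famC_log : CLogGrowth famC := by
  refine ⟨3, ?_⟩
  intro x hx t ht
  obtain ⟨c, hcm, hc0, hc1, hv, heq, hu⟩ := ctraj_coord hx
  set L := Real.log (t + 3) with hL
  have hL1 : 1 ≤ L := log_ge_one ht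
  have hx0 : |x 0 0| ≤ ‖x 0‖ := norm_le_pi_norm (x 0) 0
  have hx1 : |x 0 1| ≤ ‖x 0‖ := norm_le_pi_norm (x 0) 1
  have hR : 0 ≤ ‖x 0‖ := norm_nonneg _
  have key : |x t 1| ≤ |x 0 1| ∧
      |∫ s in (0 : ℝ)..t, Real.negMulLog (c s) * x s 1| ≤ (L + 1) * |x 0 1| := by
    rcases le_total 0 (x 0 1) with h | h
    · have := scalar_bound hcm hc0 hc1 hv heq h t ht
      rw [abs_of_nonneg h]
      exact this
    · have hv' : ContinuousOn (fun t => -x t 1) (Ici 0) := hv.neg
      have heq' : ∀ t, 0 ≤ t → (fun t => -x t 1) t = (fun t => -x t 1) 0 -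
          ∫ s in (0 : ℝ)..t, c s * (fun t => -x t 1) s := by
        intro t ht
        simp only [mul_neg, intervalIntegral.integral_neg]
        rw [heq t ht]; ring
      have := scalar_bound (v := fun t => -x t 1) hcm hc0 hc1 hv' heq' (by simpa using h) t ht
      simp only [mul_neg, intervalIntegral.integral_neg, abs_neg] at this
      rw [abs_of_nonpos h]
      simpa using this
  have h0 : |x t 0| ≤ 3 * L * ‖x 0‖ := by
    rw [hu t ht]
    refine (abs_add_le _ _).trans ?_
    have := key.2
    nlinarith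
  have h1 : |x t 1| ≤ 3 * L * ‖x 0‖ := by
    have := key.1
    nlinarith
  rw [pi_norm_le_iff_of_nonneg (by positivity)]
  intro i
  rw [Real.norm_eq_abs]
  fin_cases i
  · exact h0
  · exact h1

/-! ### an unbounded trajectory -/

/-- truncated time -/
noncomputable def tau (t : ℝ) : ℝ := max t 0 + 3

lemma tau_ge (t : ℝ) : 3 ≤ tau t := by unfold tau; linarith [le_max_right t 0]

lemma tau_of_nonneg {t : ℝ} (ht : 0 ≤ t) : tau t = t + 3 := by unfold tau; rw [max_eq_left ht]

lemma continuous_tau : Continuous tau := by unfold tau; fun_prop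

lemma log_tau_ge (t : ℝ) : 1 ≤ Real.log (tau t) := by
  have h := tau_ge t
  rw [Real.le_log_iff_exp_le (by linarith)]
  have := Real.exp_one_lt_d9
  linarith

noncomputable def cc (t : ℝ) : ℝ := 1 / (tau t * Real.log (tau t))
noncomputable def vC (t : ℝ) : ℝ := 1 / Real.log (tau t)
noncomputable def uC (t : ℝ) : ℝ := ∫ s in (0 : ℝ)..t, Real.negMulLog (cc s) * vC s

lemma continuous_log_tau : Continuous fun t => Real.log (tau t) :=
  continuous_tau.log fun t => by have := tau_ge t; linarith

lemma continuous_cc : Continuous cc := by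
  unfold cc
  refine continuous_const.div (continuous_tau.mul continuous_log_tau) fun t => ?_
  have h1 := tau_ge t
  have h2 := log_tau_ge t
  positivity

lemma continuous_vC : Continuous vC := by
  unfold vC
  refine continuous_const.div continuous_log_tau fun t => ?_
  have h2 := log_tau_ge t
  positivity

lemma cc_mem (t : ℝ) : cc t ∈ Icc (0 : ℝ) (1 / 2) := by
  have h1 := tau_ge t
  have h2 := log_tau_ge t
  unfold cc
  constructor
  · positivity
  · apply one_div_le_one_div_of_le (by norm_num)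
    nlinarith

lemma continuous_uC : Continuous uC := by
  unfold uC
  apply intervalIntegral.continuous_primitive
  intro a b
  exact ((Real.continuous_negMulLog.comp continuous_cc).mul continuous_vC).intervalIntegrable _ _

noncomputable def xC (t : ℝ) : Fin 2 → ℝ := ![uC t, vC t]

lemma vC_eq (t : ℝ) (ht : 0 ≤ t) : vC t = vC 0 + ∫ s in (0 : ℝ)..t, -(cc s * vC s) := by
  have h : ∀ s ∈ uIcc 0 t, HasDerivAt (fun s : ℝ => 1 / Real.log (s + 3)) (-(cc s * vC s)) s := by
    intro s hs
    rw [uIcc_of_le ht] at hs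
    have h1 := tau_ge s
    have h2 := log_tau_ge s
    have h3 := tau_of_nonneg hs.1
    have hd : HasDerivAt (fun s : ℝ => Real.log (s + 3)) (1 / (s + 3)) s := by
      have := ((hasDerivAt_id s).add_const 3).log (by simp; linarith [hs.1])
      simpa using this
    have hl : Real.log (s + 3) ≠ 0 := by rw [← h3]; positivity
    have h5 : HasDerivAt (fun s : ℝ => 1 / Real.log (s + 3))
        ((0 * Real.log (s + 3) - 1 * (1 / (s + 3))) / Real.log (s + 3) ^ 2) s :=
      (hasDerivAt_const s (1 : ℝ)).div hd hl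
    have h4 : s + 3 ≠ 0 := by linarith [hs.1]
    have h6 : -(cc s * vC s) =
        (0 * Real.log (s + 3) - 1 * (1 / (s + 3))) / Real.log (s + 3) ^ 2 := by
      unfold cc vC
      rw [h3]
      field_simp
      ring
    rw [h6]
    exact h5
  have hint : IntervalIntegrable (fun s => -(cc s * vC s)) volume 0 t :=
    ((continuous_cc.mul continuous_vC).neg).intervalIntegrable _ _
  have := intervalIntegral.integral_eq_sub_of_hasDerivAt h hint
  rw [this]
  unfold vC
  rw [tau_of_nonneg ht, tau_of_nonneg le_rfl]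
  ring

lemma xC_traj : IsCTraj famC xC := by
  refine ⟨fun t => matC (cc t), ?_, ?_, ?_, ?_⟩
  · intro i j
    have h : Continuous fun t => matC (cc t) i j :=
      (continuous_apply_apply i j).comp (continuous_matC.comp continuous_cc)
    exact h.measurable
  · intro t _
    exact ⟨cc t, cc_mem t, rfl⟩
  · apply Continuous.continuousOn
    unfold xC
    refine continuous_pi fun i => ?_
    fin_cases i
    · simpa using continuous_uC
    · simpa using continuous_vC
  · intro t ht
    have e : (fun s => Matrix.mulVec (matC (cc s)) (xC s))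
        = fun s => (![Real.negMulLog (cc s) * vC s, -(cc s * vC s)] : Fin 2 → ℝ) := by
      ext1 s
      rw [matC_mulVec]
      simp [xC]
    simp only [e]
    have h3 : ∀ i, (∫ s in (0 : ℝ)..t,
        (![Real.negMulLog (cc s) * vC s, -(cc s * vC s)] : Fin 2 → ℝ)) i
        = ∫ s in (0 : ℝ)..t,
          (![Real.negMulLog (cc s) * vC s, -(cc s * vC s)] : Fin 2 → ℝ) i := by
      intro i
      rw [intervalIntegral.integral_of_le ht, intervalIntegral.integral_of_le ht]
      apply eval_integral
      intro j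
      have hcj : Continuous fun s =>
          (![Real.negMulLog (cc s) * vC s, -(cc s * vC s)] : Fin 2 → ℝ) j := by
        fin_cases j
        · exact (Real.continuous_negMulLog.comp continuous_cc).mul continuous_vC
        · exact (continuous_cc.mul continuous_vC).neg
      exact (hcj.integrableOn_Icc (a := 0) (b := t)).mono_set Ioc_subset_Icc_self
    ext i
    rw [Pi.add_apply, h3]
    fin_cases i
    · simp [xC, uC]
    · simpa [xC] using vC_eq t ht

lemma uC_ge (t : ℝ) (ht : 0 ≤ t) :
    Real.log (Real.log (t + 3)) - Real.log (Real.log 3) ≤ uC t := by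
  have h : ∀ s ∈ uIcc 0 t, HasDerivAt (fun s : ℝ => Real.log (Real.log (s + 3))) (cc s) s := by
    intro s hs
    rw [uIcc_of_le ht] at hs
    have h1 := tau_ge s
    have h2 := log_tau_ge s
    have h3 := tau_of_nonneg hs.1
    have hd : HasDerivAt (fun s : ℝ => Real.log (s + 3)) (1 / (s + 3)) s := by
      have := ((hasDerivAt_id s).add_const 3).log (by simp; linarith [hs.1])
      simpa using this
    have hl : Real.log (s + 3) ≠ 0 := by rw [← h3]; positivity
    have := hd.log hl
    have h4 : s + 3 ≠ 0 := by linarith [hs.1]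
    convert this using 1
    unfold cc
    rw [h3]
    field_simp
  have hint : IntervalIntegrable cc volume 0 t := continuous_cc.intervalIntegrable _ _
  have h5 := intervalIntegral.integral_eq_sub_of_hasDerivAt h hint
  have h6 : ∫ s in (0 : ℝ)..t, cc s ≤ uC t := by
    unfold uC
    have hi2 : IntervalIntegrable (fun s => Real.negMulLog (cc s) * vC s) volume 0 t :=
      ((Real.continuous_negMulLog.comp continuous_cc).mul continuous_vC).intervalIntegrable _ _
    apply intervalIntegral.integral_mono_on ht hint hi2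
    intro s hs
    have h1 := tau_ge s
    have h2 := log_tau_ge s
    have hc := cc_mem s
    have hlog : Real.log (tau s) ≤ -Real.log (cc s) := by
      unfold cc
      rw [one_div, Real.log_inv, neg_neg]
      apply Real.log_le_log (by linarith)
      nlinarith
    have hv : vC s * Real.log (tau s) = 1 := by
      unfold vC
      field_simp
    have hv0 : 0 ≤ vC s := by unfold vC; positivity
    have : Real.negMulLog (cc s) * vC s = cc s * (vC s * (-Real.log (cc s))) := by
      unfold Real.negMulLog; ring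
    rw [this]
    calc cc s = cc s * (vC s * Real.log (tau s)) := by rw [hv, mul_one]
      _ ≤ _ := by
        have := hc.1
        gcongr
  rw [h5] at h6
  norm_num at h6 ⊢
  linarith

lemma famC_unbounded : ¬ CBounded famC := by
  intro hb
  obtain ⟨C, hC⟩ := hb xC xC_traj
  have hlim : Tendsto (fun t : ℝ => Real.log (Real.log (t + 3)) - Real.log (Real.log 3))
      atTop atTop := by
    apply tendsto_atTop_add_const_right
    exact Real.tendsto_log_atTop.comp (Real.tendsto_log_atTop.comp
      (tendsto_atTop_add_const_right _ _ tendsto_id))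
  obtain ⟨t, ht0, ht⟩ := ((eventually_ge_atTop (0 : ℝ)).and (hlim.eventually_gt_atTop C)).exists
  have h1 := hC t ht0
  have h2 : |xC t 0| ≤ ‖xC t‖ := norm_le_pi_norm (xC t) 0
  have h3 : xC t 0 = uC t := by simp [xC]
  rw [h3] at h2
  have h4 := uC_ge t ht0
  have h5 := le_abs_self (uC t)
  linarith

lemma famC_lyapunov : lyapunov famC = 0 := by
  unfold lyapunov
  apply le_antisymm
  · apply sSup_le
    rintro l ⟨x, hx, hx0, rfl⟩
    obtain ⟨C, hC⟩ := famC_log
    have hlim : Tendsto (fun t : ℝ => ((|C| * ‖x 0‖ * (Real.log (t + 3) / t) : ℝ) : EReal))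
        atTop (𝓝 0) := by
      have h1 := tendsto_log_add_three_div.const_mul (|C| * ‖x 0‖)
      rw [mul_zero] at h1
      exact (continuous_coe_real_ereal.tendsto 0).comp h1
    rw [← hlim.limsup_eq]
    refine limsup_le_limsup ?_ (by isBoundedDefault) (by isBoundedDefault)
    · filter_upwards [eventually_gt_atTop (0 : ℝ)] with t ht
      rw [EReal.coe_le_coe_iff]
      have h1 := hC x hx t ht.le
      have hL : 0 ≤ Real.log (t + 3) := Real.log_nonneg (by linarith)
      have h2 : Real.log ‖x t‖ ≤ |C| * Real.log (t + 3) * ‖x 0‖ := by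
        rcases (norm_nonneg (x t)).eq_or_lt with h | h
        · rw [← h, Real.log_zero]; positivity
        · calc Real.log ‖x t‖ ≤ ‖x t‖ := by
                have := Real.log_le_sub_one_of_pos h; linarith
            _ ≤ C * Real.log (t + 3) * ‖x 0‖ := h1
            _ ≤ _ := by
              gcongr
              exact le_abs_self C
      calc 1 / t * Real.log ‖x t‖ ≤ 1 / t * (|C| * Real.log (t + 3) * ‖x 0‖) := by gcongr
        _ = _ := by ring
  · apply le_sSup
    refine ⟨fun _ => ![1, 0], ⟨fun _ => matC 0, fun i j => measurable_const,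
      fun t _ => ⟨0, by simp, rfl⟩, continuousOn_const, ?_⟩, ?_, ?_⟩
    · intro t ht
      have h0 : Matrix.mulVec (matC 0) ![1, 0] = 0 := by
        rw [matC_mulVec]
        ext i
        fin_cases i <;> simp
      simp only [h0]
      simp
    · intro h
      have := congrFun h 0
      simp at this
    · have hn : ‖(![1, 0] : Fin 2 → ℝ)‖ = 1 := by
        simp [Pi.norm_def, Finset.sup, Fin.univ_succ]
      simp [hn]

end Pool.Agent.MP_653f52_an
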