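import Mathlib
import Pool.Agent.MP_653f52_an.General
import Pool.Agent.MP_653f52_an.Angles

open Filter Topology Set
open scoped Matrix.Norms.Operator

namespace Pool.Agent.MP_653f52_an

/-- the rotation generator: fixes the first two coordinates, rotates the other two planes by
`2 a` and `2 b`. -/
noncomputable def matO (a b : ℝ) : Matrix (Fin 6) (Fin 6) ℝ :=
  !![1, 0, 0, 0, 0, 0;
     0, 1, 0, 0, 0, 0;
     0, 0, Real.cos (2 * a), -Real.sin (2 * a), 0, 0;
     0, 0, Real.sin (2 * a), Real.cos (2 * a), 0, 0;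
     0, 0, 0, 0, Real.cos (2 * b), -Real.sin (2 * b);
     0, 0, 0, 0, Real.sin (2 * b), Real.cos (2 * b)]

/-- the reset generator -/
noncomputable def matP (a b : ℝ) : Matrix (Fin 6) (Fin 6) ℝ :=
  !![1, 1 / 2, 1 / 4, 0, 1 / 4, 0;
     0, 1 / 2, 1 / 4, 0, 1 / 4, 0;
     0, Real.cos a / 2, Real.cos a / 4, 0, Real.cos a / 4, 0;
     0, Real.sin a / 2, Real.sin a / 4, 0, Real.sin a / 4, 0;
     0, Real.cos b / 2, Real.cos b / 4, 0, Real.cos b / 4, 0;
     0, Real.sin b / 2, Real.sin b / 4, 0, Real.sin b / 4, 0]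

lemma matO_mulVec (a b : ℝ) (x : Fin 6 → ℝ) :
    Matrix.mulVec (matO a b) x =
      ![x 0, x 1, Real.cos (2 * a) * x 2 - Real.sin (2 * a) * x 3,
        Real.sin (2 * a) * x 2 + Real.cos (2 * a) * x 3,
        Real.cos (2 * b) * x 4 - Real.sin (2 * b) * x 5,
        Real.sin (2 * b) * x 4 + Real.cos (2 * b) * x 5] := by
  ext i
  fin_cases i <;> simp [matO, Matrix.mulVec, dotProduct, Fin.sum_univ_succ] <;> ring

lemma matP_mulVec (a b : ℝ) (x : Fin 6 → ℝ) :
    Matrix.mulVec (matP a b) x =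
      ![x 0 + (x 1 / 2 + x 2 / 4 + x 4 / 4), x 1 / 2 + x 2 / 4 + x 4 / 4,
        Real.cos a * (x 1 / 2 + x 2 / 4 + x 4 / 4), Real.sin a * (x 1 / 2 + x 2 / 4 + x 4 / 4),
        Real.cos b * (x 1 / 2 + x 2 / 4 + x 4 / 4), Real.sin b * (x 1 / 2 + x 2 / 4 + x 4 / 4)] := by
  ext i
  fin_cases i <;> simp [matP, Matrix.mulVec, dotProduct, Fin.sum_univ_succ] <;> ring

/-- normal form of a state, `n` rotations after the last reset -/
noncomputable def G (a b : ℝ) (n : ℕ) (v u : ℝ) : Fin 6 → ℝ :=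
  ![u, v, v * Real.cos ((2 * n + 1) * a), v * Real.sin ((2 * n + 1) * a),
    v * Real.cos ((2 * n + 1) * b), v * Real.sin ((2 * n + 1) * b)]

/-- the damping factor of a reset, `n` rotations after the previous one -/
noncomputable def F (a b : ℝ) (n : ℕ) : ℝ :=
  1 / 2 + Real.cos ((2 * n + 1) * a) / 4 + Real.cos ((2 * n + 1) * b) / 4

lemma matO_G (a b : ℝ) (n : ℕ) (v u : ℝ) :
    Matrix.mulVec (matO a b) (G a b n v u) = G a b (n + 1) v u := by
  rw [matO_mulVec]
  have h : ∀ c : ℝ, (2 * ((n + 1 : ℕ) : ℝ) + 1) * c = 2 * c + (2 * n + 1) * c := by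
    intro c; push_cast; ring
  ext i
  fin_cases i
  · simp [G]
  · simp [G]
  · simp only [G, h, Real.cos_add, Real.sin_add]; simp; ring
  · simp only [G, h, Real.cos_add, Real.sin_add]; simp; ring
  · simp only [G, h, Real.cos_add, Real.sin_add]; simp; ring
  · simp only [G, h, Real.cos_add, Real.sin_add]; simp; ring

lemma matP_G (a b : ℝ) (n : ℕ) (v u : ℝ) :
    Matrix.mulVec (matP a b) (G a b n v u) = G a b 0 (v * F a b n) (u + v * F a b n) := by
  rw [matP_mulVec]
  have hF : (G a b n v u) 1 / 2 + (G a b n v u) 2 / 4 + (G a b n v u) 4 / 4 = v * F a b n := by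
    simp [G, F]; ring
  rw [hF]
  ext i
  fin_cases i <;> simp [G, mul_comm]

/-- `a = 2 π φ₁` -/
noncomputable def al : ℝ := 2 * Real.pi * phi1
/-- `b = 2 π φ₂` -/
noncomputable def be : ℝ := 2 * Real.pi * phi2

lemma F_eq (n : ℕ) : F al be n = 1 - S n / 2 := by
  unfold F S al be
  have h : ∀ p : ℝ, Real.cos ((2 * (n : ℝ) + 1) * (2 * Real.pi * p))
      = 1 - 2 * Real.sin (Real.pi * ((2 * n + 1 : ℕ) * p)) ^ 2 := by
    intro p
    have e : (2 * (n : ℝ) + 1) * (2 * Real.pi * p) = 2 * (Real.pi * ((2 * n + 1 : ℕ) * p)) := by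
      push_cast; ring
    rw [e, Real.cos_two_mul, Real.cos_sq']; ring
  rw [h, h]; ring

lemma S_le_two (n : ℕ) : S n ≤ 2 := by
  unfold S
  have h1 := Real.sin_sq_le_one (Real.pi * ((2 * n + 1 : ℕ) * phi1))
  have h2 := Real.sin_sq_le_one (Real.pi * ((2 * n + 1 : ℕ) * phi2))
  linarith

lemma S_nonneg (n : ℕ) : 0 ≤ S n := by unfold S; positivity

lemma one_le_log (T : ℕ) : 1 ≤ Real.log ((T : ℝ) + 3) := by
  rw [Real.le_log_iff_exp_le (by positivity)]
  have := Real.exp_one_lt_d9
  have hn0 : (0 : ℝ) ≤ T := Nat.cast_nonneg T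
  linarith

lemma F_le (T n : ℕ) (h : n ≤ T) : |F al be n| ≤ 1 - 1 / (16 * Real.log (T + 3)) := by
  rw [F_eq]
  have h1 := S_le_two n
  have h2 := S_nonneg n
  have h3 := S_lower n
  have hT := one_le_log T
  have hlog : Real.log ((n : ℝ) + 3) ≤ Real.log ((T : ℝ) + 3) := by
    apply Real.log_le_log (by positivity)
    have : (n : ℝ) ≤ T := by exact_mod_cast h
    linarith
  rw [abs_of_nonneg (by linarith)]
  have h4 : 1 / (16 * Real.log ((T : ℝ) + 3)) ≤ S n / 2 := by
    rw [div_le_iff₀ (by positivity)]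
    nlinarith
  linarith

lemma norm_G_le (a b : ℝ) (n : ℕ) (v u : ℝ) : ‖G a b n v u‖ ≤ |u| + |v| := by
  have hc : ∀ y : ℝ, |v * Real.cos y| ≤ |u| + |v| := by
    intro y
    rw [abs_mul]
    have := Real.abs_cos_le_one y
    nlinarith [abs_nonneg u, abs_nonneg v]
  have hs : ∀ y : ℝ, |v * Real.sin y| ≤ |u| + |v| := by
    intro y
    rw [abs_mul]
    have := Real.abs_sin_le_one y
    nlinarith [abs_nonneg u, abs_nonneg v]
  rw [pi_norm_le_iff_of_nonneg (by positivity)]
  intro i
  fin_cases i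
  · simp [G]
  · simp [G]
  · simpa [G] using hc _
  · simpa [G] using hs _
  · simpa [G] using hc _
  · simpa [G] using hs _

lemma pair_log : DLogGrowth ({matO al be, matP al be} : Set (Matrix (Fin 6) (Fin 6) ℝ)) := by
  refine ⟨80, ?_⟩
  rintro x ⟨A, hA, hx⟩ T
  set R := ‖x 0‖ with hR
  have hR0 : 0 ≤ R := norm_nonneg _
  set L := Real.log ((T : ℝ) + 3) with hL
  have hL1 : 1 ≤ L := one_le_log T
  have hco : ∀ i, |x 0 i| ≤ R := fun i => norm_le_pi_norm (x 0) i
  have key : ∀ k ≤ T,
      (|x k 0| ≤ R ∧ |x k 1| ≤ R ∧ x k 2 ^ 2 + x k 3 ^ 2 ≤ 2 * R ^ 2 ∧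
        x k 4 ^ 2 + x k 5 ^ 2 ≤ 2 * R ^ 2) ∨
      (∃ n ≤ k, ∃ v u, x k = G al be n v u ∧ |u| + 16 * L * |v| ≤ 80 * L * R) := by
    intro k
    induction k with
    | zero =>
      intro _
      left
      refine ⟨hco 0, hco 1, ?_, ?_⟩
      · have h2 := sq_le_sq' (neg_le_of_abs_le (hco 2)) (le_of_abs_le (hco 2))
        have h3 := sq_le_sq' (neg_le_of_abs_le (hco 3)) (le_of_abs_le (hco 3))
        linarith
      · have h2 := sq_le_sq' (neg_le_of_abs_le (hco 4)) (le_of_abs_le (hco 4))
        have h3 := sq_le_sq' (neg_le_of_abs_le (hco 5)) (le_of_abs_le (hco 5))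
        linarith
    | succ k ih =>
      intro hk
      have ih := ih (by omega)
      rw [hx k]
      rcases ih with ⟨h0, h1, h2, h3⟩ | ⟨n, hn, v, u, hg, hb⟩
      · rcases hA k with h | h
        · left
          rw [h, matO_mulVec]
          have c1 := Real.sin_sq_add_cos_sq (2 * al)
          have c2 := Real.sin_sq_add_cos_sq (2 * be)
          refine ⟨by simpa using h0, by simpa using h1, ?_, ?_⟩
          · have : (Real.cos (2 * al) * x k 2 - Real.sin (2 * al) * x k 3) ^ 2 +
                (Real.sin (2 * al) * x k 2 + Real.cos (2 * al) * x k 3) ^ 2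
                = (Real.sin (2 * al) ^ 2 + Real.cos (2 * al) ^ 2) * (x k 2 ^ 2 + x k 3 ^ 2) := by
              ring
            rw [c1, one_mul] at this
            simpa [this] using h2
          · have : (Real.cos (2 * be) * x k 4 - Real.sin (2 * be) * x k 5) ^ 2 +
                (Real.sin (2 * be) * x k 4 + Real.cos (2 * be) * x k 5) ^ 2
                = (Real.sin (2 * be) ^ 2 + Real.cos (2 * be) ^ 2) * (x k 4 ^ 2 + x k 5 ^ 2) := by
              ring
            rw [c2, one_mul] at this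
            simpa [this] using h3
        · right
          have h' : A k = matP al be := h
          rw [h', matP_mulVec]
          set w := x k 1 / 2 + x k 2 / 4 + x k 4 / 4 with hw
          refine ⟨0, by omega, w, x k 0 + w, ?_, ?_⟩
          · ext i
            fin_cases i <;> simp [G, mul_comm]
          · have a2 : |x k 2| ≤ 2 * R := by
              apply abs_le_of_sq_le_sq _ (by linarith)
              nlinarith [sq_nonneg (x k 3)]
            have a4 : |x k 4| ≤ 2 * R := by
              apply abs_le_of_sq_le_sq _ (by linarith)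
              nlinarith [sq_nonneg (x k 5)]
            have hwle : |w| ≤ 2 * R := by
              rw [abs_le] at a2 a4 h1 ⊢
              constructor <;> rw [hw] <;> linarith
            have hu : |x k 0 + w| ≤ R + 2 * R := (abs_add_le _ _).trans (by linarith)
            nlinarith
      · right
        rcases hA k with h | h
        · refine ⟨n + 1, by omega, v, u, ?_, hb⟩
          rw [h, hg, matO_G]
        · have h' : A k = matP al be := h
          refine ⟨0, by omega, v * F al be n, u + v * F al be n, ?_, ?_⟩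
          · rw [h', hg, matP_G]
          · have hF := F_le T n (by omega)
            rw [← hL] at hF
            have hF2 : 16 * L * |F al be n| ≤ 16 * L - 1 := by
              have : 16 * L * (1 - 1 / (16 * L)) = 16 * L - 1 := by field_simp
              calc 16 * L * |F al be n| ≤ 16 * L * (1 - 1 / (16 * L)) := by gcongr
                _ = _ := this
            have hF3 : |F al be n| ≤ 1 := by
              have : 0 ≤ 1 / (16 * L) := by positivity
              linarith
            have h1 : |u + v * F al be n| ≤ |u| + |v| * |F al be n| := by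
              rw [← abs_mul]; exact abs_add_le _ _
            rw [abs_mul]
            nlinarith [abs_nonneg v, abs_nonneg u]
  rcases key T le_rfl with ⟨h0, h1, h2, h3⟩ | ⟨n, hn, v, u, hg, hb⟩
  · rw [pi_norm_le_iff_of_nonneg (by positivity)]
    have hR2 : 2 * R ≤ 80 * L * R := by nlinarith
    have hsq : ∀ y z : ℝ, y ^ 2 + z ^ 2 ≤ 2 * R ^ 2 → |y| ≤ 2 * R := by
      intro y z hyz
      apply abs_le_of_sq_le_sq _ (by linarith)
      nlinarith [sq_nonneg z, sq_nonneg R]
    have hsq' : ∀ y z : ℝ, y ^ 2 + z ^ 2 ≤ 2 * R ^ 2 → |z| ≤ 2 * R := by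
      intro y z hyz
      exact hsq z y (by linarith)
    intro i
    rw [Real.norm_eq_abs]
    refine le_trans ?_ hR2
    fin_cases i
    · exact h0.trans (by linarith)
    · exact h1.trans (by linarith)
    · exact hsq _ _ h2
    · exact hsq' _ _ h2
    · exact hsq _ _ h3
    · exact hsq' _ _ h3
  · rw [hg]
    refine (norm_G_le _ _ _ _ _).trans ?_
    nlinarith [abs_nonneg v, abs_nonneg u]

/-- waiting times for which the loss in step `i` is at most `2 ^ (-i-2)`. -/
lemma exists_wait (i : ℕ) : ∃ n : ℕ, S n < (1 / 2 : ℝ) ^ (i + 1) := S_inf _ (by positivity)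

noncomputable def wait (i : ℕ) : ℕ := (exists_wait i).choose

lemma wait_spec (i : ℕ) : S (wait i) < (1 / 2 : ℝ) ^ (i + 1) := (exists_wait i).choose_spec

noncomputable def vv : ℕ → ℝ
  | 0 => 1
  | i + 1 => vv i * F al be (wait i)

noncomputable def uu : ℕ → ℝ
  | 0 => 0
  | i + 1 => uu i + vv i * F al be (wait i)

lemma vv_bound (i : ℕ) : 1 / 2 + (1 / 2 : ℝ) ^ (i + 1) ≤ vv i ∧ vv i ≤ 1 := by
  induction i with
  | zero => norm_num [vv]
  | succ i ih =>
    obtain ⟨h1, h2⟩ := ih
    have h3 := wait_spec i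
    have h4 := S_nonneg (wait i)
    have h5 := F_eq (wait i)
    have h6 : vv (i + 1) = vv i * F al be (wait i) := rfl
    rw [h6, h5]
    have hp : (0 : ℝ) < (1 / 2 : ℝ) ^ (i + 1) := by positivity
    have h7 : (1 / 2 : ℝ) ^ (i + 1 + 1) = (1 / 2 : ℝ) ^ (i + 1) / 2 := by rw [pow_succ]; ring
    rw [h7]
    constructor
    · nlinarith
    · nlinarith

lemma uu_bound (i : ℕ) : (i : ℝ) / 2 ≤ uu i := by
  induction i with
  | zero => simp [uu]
  | succ i ih =>
    have h1 := (vv_bound (i + 1)).1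
    have h2 : uu (i + 1) = uu i + vv (i + 1) := rfl
    have h3 : (0 : ℝ) < (1 / 2 : ℝ) ^ (i + 1 + 1) := by positivity
    rw [h2]
    push_cast
    linarith

/-- the controller: block index and number of rotations since the last reset -/
noncomputable def st : ℕ → ℕ × ℕ
  | 0 => (0, 0)
  | k + 1 => if (st k).2 = wait (st k).1 then ((st k).1 + 1, 0) else ((st k).1, (st k).2 + 1)

noncomputable def ctrl (k : ℕ) : Matrix (Fin 6) (Fin 6) ℝ :=
  if (st k).2 = wait (st k).1 then matP al be else matO al be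

noncomputable def traj (k : ℕ) : Fin 6 → ℝ :=
  G al be (st k).2 (vv (st k).1) (uu (st k).1)

lemma traj_succ (k : ℕ) : traj (k + 1) = Matrix.mulVec (ctrl k) (traj k) := by
  unfold traj ctrl
  by_cases h : (st k).2 = wait (st k).1
  · have hs : st (k + 1) = ((st k).1 + 1, 0) := by rw [st, if_pos h]
    rw [if_pos h, matP_G, hs, h]
    rfl
  · have hs : st (k + 1) = ((st k).1, (st k).2 + 1) := by rw [st, if_neg h]
    rw [if_neg h, matO_G, hs]

lemma st_reach_aux (i k : ℕ) (h : st k = (i, 0)) (j : ℕ) (hj : j ≤ wait i) :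
    st (k + j) = (i, j) := by
  induction j with
  | zero => exact h
  | succ j ih =>
    have := ih (by omega)
    rw [← add_assoc, st, this]
    simp only
    rw [if_neg (by omega)]

lemma st_reach (i : ℕ) : ∃ k, st k = (i, 0) := by
  induction i with
  | zero => exact ⟨0, rfl⟩
  | succ i ih =>
    obtain ⟨k, hk⟩ := ih
    have h := st_reach_aux i k hk (wait i) le_rfl
    exact ⟨k + wait i + 1, by rw [st, h]; simp⟩

lemma pair_unbounded :
    ¬ DBounded ({matO al be, matP al be} : Set (Matrix (Fin 6) (Fin 6) ℝ)) := by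
  intro hb
  have htr : IsDTraj ({matO al be, matP al be} : Set (Matrix (Fin 6) (Fin 6) ℝ)) traj := by
    refine ⟨ctrl, fun k => ?_, traj_succ⟩
    unfold ctrl
    split_ifs
    · exact Or.inr rfl
    · exact Or.inl rfl
  obtain ⟨C, hC⟩ := hb traj htr
  obtain ⟨i, hi⟩ := exists_nat_gt (2 * C)
  obtain ⟨k, hk⟩ := st_reach i
  have h1 := hC k
  have h2 : |traj k 0| ≤ ‖traj k‖ := norm_le_pi_norm (traj k) 0
  have h3 : traj k 0 = uu i := by simp [traj, hk, G]
  rw [h3] at h2
  have h4 := uu_bound i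
  have h5 := le_abs_self (uu i)
  linarith

lemma pair_fix : ∃ A0 ∈ ({matO al be, matP al be} : Set (Matrix (Fin 6) (Fin 6) ℝ)),
    ∃ e : Fin 6 → ℝ, e ≠ 0 ∧ Matrix.mulVec A0 e = e := by
  refine ⟨matO al be, Or.inl rfl, ![1, 0, 0, 0, 0, 0], ?_, ?_⟩
  · intro h
    have := congrFun h 0
    simp at this
  · rw [matO_mulVec]
    ext i
    fin_cases i <;> simp

end Pool.Agent.MP_653f52_an
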